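import Pool.Agent.Helper30.AC.Stmts

/-! # Row HUL: the closed absolutely convex hull and countably many functionals -/

set_option autoImplicit false

universe u

open Filter Topology

namespace Pool.Agent.Helper80.AC

open Pool.Agent.Helper30.AC

theorem exists_sep (E : Type u) [NormedAddCommGroup E] [NormedSpace ℝ E] (K : Set E)
    (hK : IsCompact K) : ∃ y : ℕ → E →L[ℝ] ℝ, Sep K y := by
  by_cases hne : K.Nonempty
  swap
  · exact ⟨fun _ => 0, fun v hv => absurd ⟨v, hv⟩ hne⟩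
  have hD : IsCompact ((fun p : E × E => p.1 - p.2) '' (K ×ˢ K)) :=
    (hK.prod hK).image (by fun_prop)
  obtain ⟨a, ha⟩ := hne
  set D : Set E := (fun p : E × E => p.1 - p.2) '' (K ×ˢ K) with hDdef
  have : Nonempty D := ⟨⟨a - a, ⟨(a, a), ⟨ha, ha⟩, rfl⟩⟩⟩
  have : CompactSpace D := isCompact_iff_compactSpace.mp hD
  have : TopologicalSpace.SeparableSpace D := inferInstance
  choose g hg1 hg2 using fun x : E => exists_dual_vector'' ℝ x
  refine ⟨fun i => g (TopologicalSpace.denseSeq D i : E), ?_⟩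
  intro v hv w hw h
  by_contra hvw
  have hpos : 0 < ‖v - w‖ := norm_pos_iff.mpr (sub_ne_zero.mpr hvw)
  have hmem : v - w ∈ D := ⟨(v, w), ⟨hv, hw⟩, rfl⟩
  have hd := TopologicalSpace.denseRange_denseSeq D
  obtain ⟨i, hi⟩ := hd.exists_dist_lt (⟨v - w, hmem⟩ : D) (half_pos hpos)
  have hi' : ‖(v - w) - (TopologicalSpace.denseSeq D i : E)‖ < ‖v - w‖ / 2 := by
    rw [← dist_eq_norm]
    exact hi
  set d : E := (TopologicalSpace.denseSeq D i : E) with hd'
  have h0 : g d (v - w) = 0 := by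
    rw [map_sub, sub_eq_zero]
    exact h i
  have h1 : ‖d‖ ≤ ‖(v - w) - d‖ := by
    have e1 : g d ((v - w) - d) = -‖d‖ := by
      rw [map_sub, h0, hg2]
      simp
    have e2 : ‖g d ((v - w) - d)‖ ≤ 1 * ‖(v - w) - d‖ :=
      (g d).le_of_opNorm_le (hg1 d) _
    rw [e1, norm_neg, norm_norm, one_mul] at e2
    exact e2
  have h2 : ‖v - w‖ ≤ ‖(v - w) - d‖ + ‖d‖ := by
    calc ‖v - w‖ = ‖((v - w) - d) + d‖ := by rw [sub_add_cancel]
      _ ≤ _ := norm_add_le _ _
  linarith

theorem st_HUL : ST_HUL.{u} := by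
  intro E _ _ _ K0 hK0
  have hc : IsCompact (closedAbsConvexHull ℝ (insert 0 K0)) :=
    isCompact_closedAbsConvexHull_of_totallyBounded (hK0.insert 0).totallyBounded
  have hab : AbsConvex ℝ (closedAbsConvexHull ℝ (insert (0 : E) K0)) :=
    absConvex_convexClosedHull
  have hsub : insert (0 : E) K0 ⊆ closedAbsConvexHull ℝ (insert (0 : E) K0) :=
    subset_closedAbsConvexHull
  refine ⟨closedAbsConvexHull ℝ (insert 0 K0), ⟨hc, hab.2, hsub (Set.mem_insert _ _), ?_⟩,
    fun x hx => hsub (Set.mem_insert_of_mem _ hx), exists_sep E _ hc⟩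
  intro v hv
  exact hab.1.neg_mem_iff.mpr hv

end Pool.Agent.Helper80.AC
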